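import Pool.Agent.H66.SG.All

set_option autoImplicit false

open Finset Filter

namespace Pool.Agent.Results.MP_c59857_nt.AbsoluteGap

/-- The gap `1 / 9`: for all shifts, all exponents which are not all even, and all residue classes,
the partial sums of the product of Chowla's conjecture beat the trivial bound by the factor
`8 / 9` at all scales `N` outside a set of upper logarithmic Banach density zero. -/
theorem result (r : ℕ) (α : Fin r → ℤ) (ε : Fin r → ℕ) (q n₀ : ℕ) (hα : Function.Injective α)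
    (hε : ∀ i, 1 ≤ ε i) (hodd : ∃ i, Odd (ε i)) (hq : 0 < q) (ρ : ℝ) (hρ : 0 < ρ) :
    ∃ K : ℕ, ∀ x y : ℕ, 0 < x → K * x ≤ y →
      ∑ N ∈ (Finset.Icc x y).filter (fun N : ℕ =>
        (1 - 1 / 9 : ℝ) * (∑ n ∈ (Finset.Icc 1 N).filter (fun n => n ≡ n₀ [MOD q]),
          |∏ i, ((ArithmeticFunction.moebius (((n : ℤ) + α i).toNat) : ℤ) : ℝ) ^ ε i|)
          < |∑ n ∈ (Finset.Icc 1 N).filter (fun n => n ≡ n₀ [MOD q]),
          ∏ i, ((ArithmeticFunction.moebius (((n : ℤ) + α i).toNat) : ℤ) : ℝ) ^ ε i|),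
        (1 : ℝ) / N ≤ ρ * Real.log (y / x) :=
  Pool.Agent.H66.SG.All.gap r α ε q n₀ hα hε hodd hq ρ hρ

end Pool.Agent.Results.MP_c59857_nt.AbsoluteGap
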