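import Pool.Agent.H28.MCB.All
import Pool.Agent.H28.MCB.Tls
import Pool.Agent.H24.BZ.All

/-!
# Products of clusters at almost all scales

The factors of Chowla's conjecture are grouped in `m` clusters `F l`, of any number of factors each,
and the clusters are moved by `t l` in `[1, T]`.  Outside a set of `N` of upper logarithmic Banach
density zero, the mean over `t` of the absolute values of the sums over the intervals of any family
of disjoint intervals in `(0, N]` of total length at least `θ N` is at most `ρ` times the trivial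
bound, where `ρ < 1` depends on `θ` and `m` only and tends to zero when `m` tends to infinity.
-/

set_option autoImplicit false

open Finset

namespace Pool.Agent.Results.MP_c59857_nt.ManyClusters

open Classical in
/-- Products of clusters at almost all scales. -/
theorem result :
    ∃ c : ℝ, 0 < c ∧ ∀ (θ : ℝ) (m : ℕ) (r : Fin m → ℕ) (α : (l : Fin m) → Fin (r l) → ℤ)
      (ε : (l : Fin m) → Fin (r l) → ℕ) (q n₀ : ℕ) (τ : Fin m → ℕ) (ρ : ℝ), 0 < θ → θ ≤ 1 →
      1 ≤ m → (∀ l, Function.Injective (α l)) → (∀ l i, 1 ≤ ε l i) → (∀ l, ∃ i, Odd (ε l i)) →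
      0 < q → 0 < ρ →
      ∃ K : ℕ, ∀ x y : ℕ, 0 < x → K * x ≤ y →
        ∑ N ∈ (Icc x y).filter (fun N => ∃ (T : ℕ) (w : ℕ → ℝ) (I : Finset (ℕ × ℕ)),
            K ≤ T ∧ T ≤ N ∧ (∀ n, |w n| ≤ 1) ∧ (∀ J ∈ I, J.1 + K ≤ J.2 ∧ J.2 ≤ N) ∧
            (I : Set (ℕ × ℕ)).PairwiseDisjoint (fun J => Ioc J.1 J.2) ∧
            θ * N ≤ ∑ J ∈ I, ((J.2 : ℝ) - J.1) ∧
            min (1 - c * θ ^ 2) ((1 / (θ ^ 2 * (m : ℝ))) ^ ((1 : ℝ) / 5) / c) *
              (∑ J ∈ I, ∑ t ∈ (Fintype.piFinset (fun _ : Fin m => Icc 1 T)).filter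
                  (fun t => ∀ l, t l ≡ τ l [MOD q]),
                ∑ n ∈ (Ioc J.1 J.2).filter (fun n => n ≡ n₀ [MOD q]),
                  ∏ l, |∏ i, ((ArithmeticFunction.moebius
                    ((((n + t l : ℕ) : ℤ) + α l i).toNat) : ℤ) : ℝ) ^ ε l i|) <
              ∑ J ∈ I, ∑ t ∈ (Fintype.piFinset (fun _ : Fin m => Icc 1 T)).filter
                  (fun t => ∀ l, t l ≡ τ l [MOD q]),
                |∑ n ∈ (Ioc J.1 J.2).filter (fun n => n ≡ n₀ [MOD q]),
                  w n * ∏ l, ∏ i, ((ArithmeticFunction.moebius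
                    ((((n + t l : ℕ) : ℤ) + α l i).toNat) : ℤ) : ℝ) ^ ε l i|),
          (1 : ℝ) / N ≤ ρ * Real.log ((y : ℝ) / x) :=
  Pool.Agent.H28.MCB.fis_explicit (Pool.Agent.H28.MCB.All.x_FIS
    (Pool.Agent.H28.MCB.tls Pool.Agent.H24.BZ.All.tlb))

end Pool.Agent.Results.MP_c59857_nt.ManyClusters
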