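import Pool.Agent.H94.C1.ClaimDefs
import Pool.Agent.H94.C1.Main

set_option autoImplicit false

namespace Pool.Agent.H83.Keep.SparseSets

open MeasureTheory SchwartzMap Pool.Agent.H84.BR.CD Pool.Agent.H94.C1.CD
open scoped NNReal ENNReal

/-- Local smoothing for the wave equation in every dimension `d ≥ 3`, for every `p ≥ p_d = 2d/(d-1)`,
for initial data `(u₀, div G)` of frequency at most `1/δ` with `u₀`, `G` carried by a set which has
dimension at most `a` at all scales between `δ` and `1`: the gain is every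
`σ < (d - a) min(1, p - 2)/p`, `σ ≤ 1/p`; here `s_p = (d-1)(1/2 - 1/p)`. -/
theorem result (d K : ℕ) (p a σ A M : ℝ) (hd : 3 ≤ d) (hp : 2 * (d : ℝ) / (d - 1) ≤ p)
    (hA : 0 ≤ A) (hM : 0 ≤ M) (hσ : σ ≤ 1 / p) (hσa : σ < (d - a) * min 1 (p - 2) / p)
    (hK : ((d : ℝ) - 1) * (1 / 2 - 1 / p) < K) :
    ∃ C : ℝ≥0, ∀ (δ : ℝ) (E : Set (EE d)) (u₀ : 𝓢(EE d, ℂ)) (G : Fin d → 𝓢(EE d, ℂ)),
      0 < δ → δ ≤ 1 → DimLe A a δ E → (∀ x, x ∉ E → u₀ x = 0 ∧ ∀ j, G j x = 0) →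
      ENNReal.ofReal (δ ^ K) * pairD K p u₀ (fun j => G j) ≤
        ENNReal.ofReal M * pairN p u₀ (fun j => G j) →
      solNorm p u₀ (divG (fun j => G j)) ≤
        C * ENNReal.ofReal (δ ^ (-(((d : ℝ) - 1) * (1 / 2 - 1 / p) - σ))) *
          pairN p u₀ (fun j => G j) := by
  obtain ⟨C, hC⟩ := Pool.Agent.H94.C1.fin2 d K p a σ A M hd hp hA hM hσ hσa hK
  refine ⟨C, fun δ E u₀ G h1 h2 h3 h4 h5 => ?_⟩
  exact hC δ E u₀ G h1 h2 h3.1 h3.2.1 h3.2.2 h4 h5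

end Pool.Agent.H83.Keep.SparseSets
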