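import Pool.Agent.H83.X.AllX

set_option autoImplicit false

open Finset Filter Topology

namespace Pool.Agent.Results.MP_c59857_nt.UniformLaw

/-- The Liouville function `λ` (`z = true`) or the Möbius function `μ` (`z = false`). -/
def f (z : Bool) (n : ℕ) : ℤ :=
  if z then (-1) ^ ArithmeticFunction.cardFactors n else ArithmeticFunction.moebius n

open Classical in
/-- **The local two-point correlations of `λ` and of `μ` are dominated by the uniform law.** Let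
`f = λ` or `f = μ`, `h ≥ 1`, let `δ` be the density of the `n` with `f(n) f(n + h) ≠ 0`, and let
`A_H(n)` be the mean of `f(m) f(m + h)` over `n < m ≤ n + H`. For every convex function `Φ` and
`ε, ρ > 0` there is `K` such that for `K ≤ H ≤ x` and `y ≥ K x` the mean of `Φ(A_H(n))` over
`n ≤ N` is at most `(1/2) ∫_{-1}^{1} Φ(δ t) dt + ε` for all `N` in `[x, y]` except for a set with
`∑ 1 / N ≤ ρ log (y / x)`. -/
theorem result (z : Bool) (h : ℕ) (hh : 0 < h) (δ : ℝ)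
    (hδ : Tendsto (fun N : ℕ => (#{n ∈ Icc 1 N | f z n * f z (n + h) ≠ 0} : ℝ) / N) atTop (𝓝 δ))
    (Φ : ℝ → ℝ) (hΦ : ConvexOn ℝ Set.univ Φ) (ε ρ : ℝ) (hε : 0 < ε) (hρ : 0 < ρ) :
    ∃ K : ℕ, ∀ H x y : ℕ, K ≤ H → H ≤ x → K * x ≤ y →
      ∑ N ∈ (Icc x y).filter (fun N => (∫ t in (-1 : ℝ)..1, Φ (δ * t)) / 2 + ε <
        (∑ n ∈ Icc 1 N, Φ ((∑ m ∈ Ioc n (n + H), ((f z m * f z (m + h) : ℤ) : ℝ)) / H)) / N),
        (1 : ℝ) / N ≤ ρ * Real.log ((y : ℝ) / x) :=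
  Pool.Agent.H83.X.Hand.main_of (fun z h Φ δ a b c => Pool.Agent.H83.X.AllX.thmX z h Φ δ a b c)
    z h hh δ hδ Φ hΦ ε ρ hε hρ

end Pool.Agent.Results.MP_c59857_nt.UniformLaw
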